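import Pool.Agent.helper67.RG.Spec

/-! Project rg (MP_2e0e07_nt), row RAD: the radical is trivial. -/

set_option autoImplicit false

namespace Pool.Agent.RG.RAD

open Matrix Polynomial Pool.Agent.GO Pool.Agent.AR

attribute [local instance 100] LieRing.ofAssociativeRing

/-- simultaneous eigenspace -/
private def EV {F A n : Type*} [Field F] [Fintype n] (θ : A → Matrix n n F) (S : Set A)
    (lam : A → F) : Submodule F (n → F) where
  carrier := {v | ∀ x ∈ S, θ x *ᵥ v = lam x • v}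
  add_mem' := by
    intro v w hv hw x hx
    rw [Matrix.mulVec_add, hv x hx, hw x hx, smul_add]
  zero_mem' := by
    intro x _
    rw [Matrix.mulVec_zero, smul_zero]
  smul_mem' := by
    intro c v hv x hx
    rw [Matrix.mulVec_smul, hv x hx, smul_comm]

private theorem mem_EV {F A n : Type*} [Field F] [Fintype n] {θ : A → Matrix n n F} {S : Set A}
    {lam : A → F} {v : n → F} : v ∈ EV θ S lam ↔ ∀ x ∈ S, θ x *ᵥ v = lam x • v := Iff.rfl

private theorem finite_EV {F A n : Type*} [Field F] [Ring A] [Algebra F A] [FiniteDimensional F A]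
    [Fintype n] [DecidableEq n] (θ : A →ₐ[F] Matrix n n F) (R : Submodule F A) :
    {lam : A → F | EV θ (R : Set A) lam ≠ ⊥ ∧ ∀ x, x ∉ R → lam x = 0}.Finite := by
  obtain ⟨k, b⟩ : ∃ k : ℕ, Nonempty (Module.Basis (Fin k) F R) := ⟨_, ⟨Module.finBasis F R⟩⟩
  obtain ⟨b⟩ := b
  -- values of lam
  have hval : ∀ lam : A → F, EV θ (R : Set A) lam ≠ ⊥ → ∀ x (hx : x ∈ R),
      lam x = ∑ j, b.repr ⟨x, hx⟩ j * lam (b j : A) := by
    intro lam hlam x hx
    obtain ⟨v, hv, hv0⟩ := (Submodule.ne_bot_iff _).1 hlam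
    have h1 : x = ∑ j, b.repr ⟨x, hx⟩ j • (b j : A) := by
      have h2 := congrArg (fun y : R => (y : A)) (b.sum_repr ⟨x, hx⟩)
      simp only [Submodule.coe_sum, Submodule.coe_smul] at h2
      exact h2.symm
    have h2 := hv x hx
    have h3 : θ x *ᵥ v = (∑ j, b.repr ⟨x, hx⟩ j * lam (b j : A)) • v := by
      conv_lhs => rw [h1]
      rw [map_sum, Matrix.sum_mulVec, Finset.sum_smul]
      refine Finset.sum_congr rfl fun j _ => ?_
      rw [map_smul, Matrix.smul_mulVec, hv _ (b j).2, smul_smul]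
    rw [h2] at h3
    exact smul_left_injective F hv0 h3
  refine Set.Finite.of_finite_image (f := fun lam : A → F => fun j => lam (b j : A)) ?_ ?_
  · refine Set.Finite.subset (Set.Finite.pi' (t := fun j : Fin k =>
      {μ : F | Module.End.HasEigenvalue (Matrix.toLin' (θ (b j : A))) μ})
      fun j => Module.End.finite_hasEigenvalue _) ?_
    rintro _ ⟨lam, ⟨hlam, _⟩, rfl⟩ j
    obtain ⟨v, hv, hv0⟩ := (Submodule.ne_bot_iff _).1 hlam
    refine Module.End.hasEigenvalue_of_hasEigenvector (x := v) ⟨?_, hv0⟩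
    rw [Module.End.mem_eigenspace_iff, Matrix.toLin'_apply]
    exact hv _ (b j).2
  · rintro lam ⟨hlam, h0⟩ lam' ⟨hlam', h0'⟩ h
    funext x
    by_cases hx : x ∈ R
    · rw [hval lam hlam x hx, hval lam' hlam' x hx]
      refine Finset.sum_congr rfl fun j _ => ?_
      have h1 := congrFun h j
      change lam (b j : A) = lam' (b j : A) at h1
      rw [h1]
    · rw [h0 x hx, h0' x hx]

@[reducible]
private def conjAct {F Γ A : Type*} [Group Γ] [Ring A] (u : Γ →* A) : MulAction Γ (A → F) where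
  smul g lam := fun a => lam (u g⁻¹ * a * u g)
  one_smul lam := by
    funext a
    change lam (u 1⁻¹ * a * u 1) = lam a
    rw [inv_one, map_one, one_mul, mul_one]
  mul_smul g h lam := by
    funext a
    change lam (u (g * h)⁻¹ * a * u (g * h)) = lam (u h⁻¹ * (u g⁻¹ * a * u g) * u h)
    rw [_root_.mul_inv_rev, map_mul, map_mul]
    simp only [mul_assoc]

private theorem scal {F Γ A : Type*} [Field F] [CharZero F] [Group Γ] [Ring A] [Algebra F A]
    [FiniteDimensional F A] (u : Γ →* A) {d : ℕ} (W : Γ →* Matrix (Fin d) (Fin d) F)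
    (θ : A →ₐ[F] Matrix (Fin d) (Fin d) F) (hd : 0 < d) (hW : ∀ g, θ (u g) = W g) (hS : SIr W)
    (R : Submodule F A) (hR : ∀ g, ∀ x ∈ R, u g * x * u g⁻¹ ∈ R)
    (htr : ∀ x ∈ R, (θ x).trace = 0) (lam₀ : A → F) (h0 : ∀ x, x ∉ R → lam₀ x = 0)
    (hne : EV θ (R : Set A) lam₀ ≠ ⊥) : ∀ x ∈ R, θ x = 0 := by
  letI := conjAct (F := F) u
  have hsm : ∀ (g : Γ) (lam : A → F) (a : A), (g • lam) a = lam (u g⁻¹ * a * u g) :=
    fun _ _ _ => rfl
  have huu : ∀ g, u g * u g⁻¹ = 1 := fun g => by rw [← map_mul, mul_inv_cancel, map_one]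
  have huu' : ∀ g, u g⁻¹ * u g = 1 := fun g => by rw [← map_mul, inv_mul_cancel, map_one]
  have hR' : ∀ g, ∀ x ∈ R, u g⁻¹ * x * u g ∈ R := by
    intro g x hx
    have := hR g⁻¹ x hx
    rwa [inv_inv] at this
  have hmap : ∀ (g : Γ) (lam : A → F), ∀ v ∈ EV θ (R : Set A) lam,
      W g *ᵥ v ∈ EV θ (R : Set A) (g • lam) := by
    intro g lam v hv x hx
    have h1 : θ x * W g = W g * θ (u g⁻¹ * x * u g) := by
      rw [← hW, ← map_mul, ← map_mul]
      congr 1
      rw [mul_assoc (u g⁻¹) x (u g), ← mul_assoc, huu, one_mul]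
    rw [Matrix.mulVec_mulVec, h1, ← Matrix.mulVec_mulVec, hv _ (hR' g x hx), Matrix.mulVec_smul,
      hsm]
  have horb : MulAction.orbit Γ lam₀ ⊆
      {lam : A → F | EV θ (R : Set A) lam ≠ ⊥ ∧ ∀ x, x ∉ R → lam x = 0} := by
    rintro _ ⟨g, rfl⟩
    refine ⟨?_, ?_⟩
    · obtain ⟨v, hv, hv0⟩ := (Submodule.ne_bot_iff _).1 hne
      refine (Submodule.ne_bot_iff _).2 ⟨W g *ᵥ v, hmap g lam₀ v hv, ?_⟩
      intro h
      apply hv0
      have h1 : W g⁻¹ *ᵥ (W g *ᵥ v) = v := by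
        rw [Matrix.mulVec_mulVec, ← map_mul, inv_mul_cancel, map_one, Matrix.one_mulVec]
      rw [← h1, h, Matrix.mulVec_zero]
    · intro x hx
      change lam₀ (u g⁻¹ * x * u g) = 0
      refine h0 _ fun h => hx ?_
      have h1 := hR g _ h
      have h2 : u g * (u g⁻¹ * x * u g) * u g⁻¹ = x := by
        rw [mul_assoc (u g⁻¹) x (u g), ← mul_assoc (u g) (u g⁻¹), huu, one_mul, mul_assoc, huu,
          mul_one]
      rwa [h2] at h1
  have hfin : (MulAction.orbit Γ lam₀).Finite := (finite_EV θ R).subset horb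
  have hH : (MulAction.stabilizer Γ lam₀).FiniteIndex := by
    refine ⟨?_⟩
    rw [MulAction.index_stabilizer]
    exact Set.ncard_ne_zero_of_mem (MulAction.mem_orbit_self lam₀) hfin
  obtain ⟨_, hirr⟩ := hS _ hH
  have htop : EV θ (R : Set A) lam₀ = ⊤ := by
    refine (hirr _ ?_).resolve_left hne
    rintro ⟨g, hg⟩ v hv
    have h1 := hmap g lam₀ v hv
    rw [MulAction.mem_stabilizer_iff.1 hg] at h1
    exact h1
  intro x hx
  have h1 : θ x = lam₀ x • (1 : Matrix (Fin d) (Fin d) F) := by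
    apply Matrix.toLin'.injective
    apply LinearMap.ext
    intro v
    have h2 : v ∈ EV θ (R : Set A) lam₀ := by rw [htop]; exact Submodule.mem_top
    rw [Matrix.toLin'_apply, Matrix.toLin'_apply, h2 x hx, Matrix.smul_mulVec, Matrix.one_mulVec]
  have h2 := htr x hx
  rw [h1, Matrix.trace_smul, Matrix.trace_one, Fintype.card_fin, smul_eq_mul, mul_eq_zero] at h2
  have h3 : (d : F) ≠ 0 := by exact_mod_cast hd.ne'
  rw [h1, h2.resolve_right h3, zero_smul]

/-- conjugation by a group element on a stable Lie subalgebra -/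
private def cj {F Γ A : Type*} [Field F] [Group Γ] [Ring A] [Algebra F A] (u : Γ →* A)
    (L₀ : LieSubalgebra F A) (hL : ∀ g, ∀ x ∈ L₀, u g * x * u g⁻¹ ∈ L₀) (g : Γ) :
    L₀ →ₗ⁅F⁆ L₀ where
  toFun x := ⟨u g * x.1 * u g⁻¹, hL g x.1 x.2⟩
  map_add' x y := Subtype.ext (by
    change u g * (x.1 + y.1) * u g⁻¹ = u g * x.1 * u g⁻¹ + u g * y.1 * u g⁻¹
    rw [mul_add, add_mul])
  map_smul' c x := Subtype.ext (by
    change u g * (c • x.1) * u g⁻¹ = c • (u g * x.1 * u g⁻¹)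
    rw [mul_smul_comm, smul_mul_assoc])
  map_lie' {x y} := Subtype.ext (by
    change u g * (x.1 * y.1 - y.1 * x.1) * u g⁻¹ =
      (u g * x.1 * u g⁻¹) * (u g * y.1 * u g⁻¹) - (u g * y.1 * u g⁻¹) * (u g * x.1 * u g⁻¹)
    have h : u g⁻¹ * u g = 1 := by rw [← map_mul, inv_mul_cancel, map_one]
    have h2 : ∀ a b : A, (u g * a * u g⁻¹) * (u g * b * u g⁻¹) = u g * (a * b) * u g⁻¹ := by
      intro a b
      calc (u g * a * u g⁻¹) * (u g * b * u g⁻¹) = u g * a * (u g⁻¹ * u g) * b * u g⁻¹ := by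
            simp only [mul_assoc]
        _ = u g * (a * b) * u g⁻¹ := by rw [h]; simp only [mul_assoc, mul_one]
    rw [h2, h2, mul_sub, sub_mul])

private theorem cj_cj {F Γ A : Type*} [Field F] [Group Γ] [Ring A] [Algebra F A] (u : Γ →* A)
    (L₀ : LieSubalgebra F A) (hL : ∀ g, ∀ x ∈ L₀, u g * x * u g⁻¹ ∈ L₀) (g : Γ) (x : L₀) :
    cj u L₀ hL g (cj u L₀ hL g⁻¹ x) = x := by
  apply Subtype.ext
  change u g * (u g⁻¹ * x.1 * u g⁻¹⁻¹) * u g⁻¹ = x.1
  have h : u g * u g⁻¹ = 1 := by rw [← map_mul, mul_inv_cancel, map_one]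
  rw [inv_inv]
  calc u g * (u g⁻¹ * x.1 * u g) * u g⁻¹ = (u g * u g⁻¹) * x.1 * (u g * u g⁻¹) := by
        simp only [mul_assoc]
    _ = x.1 := by rw [h, one_mul, mul_one]

private theorem cj_cj' {F Γ A : Type*} [Field F] [Group Γ] [Ring A] [Algebra F A] (u : Γ →* A)
    (L₀ : LieSubalgebra F A) (hL : ∀ g, ∀ x ∈ L₀, u g * x * u g⁻¹ ∈ L₀) (g : Γ) (x : L₀) :
    cj u L₀ hL g⁻¹ (cj u L₀ hL g x) = x := by
  have h := cj_cj u L₀ hL g⁻¹ x
  rwa [inv_inv] at h

private theorem rad_stable {F Γ A : Type*} [Field F] [Group Γ] [Ring A] [Algebra F A]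
    [FiniteDimensional F A] (u : Γ →* A)
    (L₀ : LieSubalgebra F A) (hL : ∀ g, ∀ x ∈ L₀, u g * x * u g⁻¹ ∈ L₀) (g : Γ) (x : L₀)
    (hx : x ∈ LieAlgebra.radical F L₀) : cj u L₀ hL g x ∈ LieAlgebra.radical F L₀ := by
  set R := LieAlgebra.radical F L₀ with hRdef
  set f := cj u L₀ hL g⁻¹ with hf
  have hmem : ∀ y : L₀, y ∈ R.comap f ↔ f y ∈ R := fun y => LieIdeal.mem_comap
  have hsol : LieAlgebra.IsSolvable (R.comap f) := by
    let ψ : (R.comap f) →ₗ⁅F⁆ R :=
      { toFun := fun y => ⟨f y.1, (hmem _).1 y.2⟩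
        map_add' := fun y z => Subtype.ext (map_add f y.1 z.1)
        map_smul' := fun c y => Subtype.ext (map_smul f c y.1)
        map_lie' := fun {y z} => Subtype.ext (LieHom.map_lie f y.1 z.1) }
    have hψ : Function.Injective ψ := by
      intro y z h
      apply Subtype.ext
      have h1 : f y.1 = f z.1 := congrArg Subtype.val h
      have h2 : Function.LeftInverse (cj u L₀ hL g) f := fun w => cj_cj u L₀ hL g w
      exact h2.injective h1
    exact hψ.lieAlgebra_isSolvable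
  have hle : R.comap f ≤ R := (LieAlgebra.LieIdeal.solvable_iff_le_radical F L₀ _).1 hsol
  apply hle
  rw [hmem, hf, cj_cj']
  exact hx

theorem RAD : RAD_stmt := by
  intro F Γ A _ _ _ _ _ _ _ u N d W θ hd hinj hW hS L₀ hL htr
  refine ⟨?_⟩
  rw [LieSubmodule.eq_bot_iff]
  intro x hx
  apply Subtype.ext
  apply hinj
  intro i
  set R := LieAlgebra.radical F L₀ with hRdef
  let R' : Submodule F A := Submodule.map L₀.toSubmodule.subtype R.toSubmodule
  have hR' : ∀ a : A, a ∈ R' ↔ ∃ y : L₀, y ∈ R ∧ (y : A) = a := fun a => Iff.rfl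
  haveI : Nonempty (Fin (d i)) := ⟨⟨0, hd i⟩⟩
  haveI : Nontrivial (Fin (d i) → F) := inferInstance
  let φ : R →ₗ⁅F⁆ Module.End F (Fin (d i) → F) :=
    (AlgHom.toLieHom ((Matrix.toLinAlgEquiv' : Matrix (Fin (d i)) (Fin (d i)) F ≃ₐ[F] _).toAlgHom.comp
      (θ i))).comp (L₀.incl.comp R.incl)
  letI := LieRingModule.compLieHom (Fin (d i) → F) φ
  haveI := LieModule.compLieHom (Fin (d i) → F) φ
  obtain ⟨χ, hχ⟩ := LieModule.exists_nontrivial_weightSpace_of_isSolvable F R (Fin (d i) → F)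
  obtain ⟨⟨v, hv⟩, hv0⟩ := exists_ne (0 : LieModule.weightSpace (Fin (d i) → F) χ)
  rw [LieModule.mem_weightSpace] at hv
  have hv1 : ∀ y : R, θ i (y.1 : A) *ᵥ v = χ y • v := fun y => hv y
  classical
  let lam₀ : A → F := fun a => if h : ∃ y : R, (y.1 : A) = a then χ h.choose else 0
  have hlam : ∀ y : R, lam₀ (y.1 : A) = χ y := by
    intro y
    have h : ∃ z : R, (z.1 : A) = (y.1 : A) := ⟨y, rfl⟩
    change (if h : ∃ z : R, (z.1 : A) = (y.1 : A) then χ h.choose else 0) = χ y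
    rw [dif_pos h]
    congr 1
    exact Subtype.ext (Subtype.ext h.choose_spec)
  refine scal (F := F) u (W i) (θ i) (hd i) (hW i) (hS i) R' ?_ ?_ lam₀ ?_ ?_ x ?_
  · intro g a ha
    obtain ⟨y, hy, rfl⟩ := (hR' a).1 ha
    exact (hR' _).2 ⟨cj u L₀ hL g y, rad_stable u L₀ hL g y hy, rfl⟩
  · intro a ha
    obtain ⟨y, hy, rfl⟩ := (hR' a).1 ha
    exact htr _ y.2 i
  · intro a ha
    change (if h : ∃ z : R, (z.1 : A) = a then χ h.choose else 0) = 0
    rw [dif_neg]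
    rintro ⟨z, rfl⟩
    exact ha ((hR' _).2 ⟨z.1, z.2, rfl⟩)
  · refine (Submodule.ne_bot_iff _).2 ⟨v, ?_, fun h => hv0 (Subtype.ext h)⟩
    intro a ha
    obtain ⟨y, hy, rfl⟩ := (hR' a).1 ha
    rw [hlam ⟨y, hy⟩]
    exact hv1 ⟨y, hy⟩
  · exact (hR' _).2 ⟨x, hx, rfl⟩

end Pool.Agent.RG.RAD
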