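import Pool.Agent.helper67.RG.Spec

/-! Project rg (MP_2e0e07_nt), row TRI: matrix units for a matrix with distinct eigenvalues. -/

set_option autoImplicit false

namespace Pool.Agent.RG.TRI

open Matrix Polynomial

private theorem aux {F : Type*} [Field F] (A T Ti : Matrix (Fin 2) (Fin 2) F) (α β : F)
    (h1 : T * Ti = 1) (h2 : Ti * T = 1) (hA : A * T = T * !![α, 0; 0, β]) :
    ∃ e f : Matrix (Fin 2) (Fin 2) F, e * e = 0 ∧ f * f = 0 ∧ e * f + f * e = 1 ∧
      β • (A * e) = α • (e * A) ∧ α • (A * f) = β • (f * A) := by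
  obtain ⟨D, hD⟩ : ∃ D : Matrix (Fin 2) (Fin 2) F, D = !![α, 0; 0, β] := ⟨_, rfl⟩
  obtain ⟨E, hE⟩ : ∃ E : Matrix (Fin 2) (Fin 2) F, E = !![0, 1; 0, 0] := ⟨_, rfl⟩
  obtain ⟨G, hG⟩ : ∃ G : Matrix (Fin 2) (Fin 2) F, G = !![0, 0; 1, 0] := ⟨_, rfl⟩
  rw [← hD] at hA
  have hTA : Ti * A = D * Ti := by
    calc Ti * A = Ti * A * (T * Ti) := by rw [h1, mul_one]
      _ = Ti * (A * T) * Ti := by simp only [mul_assoc]
      _ = (Ti * T) * D * Ti := by rw [hA]; simp only [mul_assoc]
      _ = D * Ti := by rw [h2, one_mul]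
  have hEE : E * E = 0 := by
    rw [hE]; ext i j; fin_cases i <;> fin_cases j <;> simp
  have hGG : G * G = 0 := by
    rw [hG]; ext i j; fin_cases i <;> fin_cases j <;> simp
  have hEG : E * G + G * E = 1 := by
    rw [hE, hG]; ext i j; fin_cases i <;> fin_cases j <;> simp
  have hDE : β • (D * E) = α • (E * D) := by
    rw [hE, hD]; ext i j; fin_cases i <;> fin_cases j <;> simp [mul_comm]
  have hDG : α • (D * G) = β • (G * D) := by
    rw [hG, hD]; ext i j; fin_cases i <;> fin_cases j <;> simp [mul_comm]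
  have key : ∀ X Y : Matrix (Fin 2) (Fin 2) F, (T * X * Ti) * (T * Y * Ti) = T * (X * Y) * Ti := by
    intro X Y
    calc (T * X * Ti) * (T * Y * Ti) = T * X * (Ti * T) * Y * Ti := by simp only [mul_assoc]
      _ = T * (X * Y) * Ti := by rw [h2, mul_one]; simp only [mul_assoc]
  have keyl : ∀ X : Matrix (Fin 2) (Fin 2) F, A * (T * X * Ti) = T * (D * X) * Ti := by
    intro X
    calc A * (T * X * Ti) = (A * T) * X * Ti := by simp only [mul_assoc]
      _ = T * (D * X) * Ti := by rw [hA]; simp only [mul_assoc]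
  have keyr : ∀ X : Matrix (Fin 2) (Fin 2) F, (T * X * Ti) * A = T * (X * D) * Ti := by
    intro X
    calc (T * X * Ti) * A = T * X * (Ti * A) := by simp only [mul_assoc]
      _ = T * (X * D) * Ti := by rw [hTA]; simp only [mul_assoc]
  refine ⟨T * E * Ti, T * G * Ti, ?_, ?_, ?_, ?_, ?_⟩
  · rw [key, hEE, mul_zero, zero_mul]
  · rw [key, hGG, mul_zero, zero_mul]
  · rw [key, key, ← add_mul, ← mul_add, hEG, mul_one, h1]
  · rw [keyl, keyr, ← smul_mul_assoc, ← mul_smul_comm, hDE, mul_smul_comm, smul_mul_assoc]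
  · rw [keyl, keyr, ← smul_mul_assoc, ← mul_smul_comm, hDG, mul_smul_comm, smul_mul_assoc]

private theorem aux2 {F : Type*} [Field F] (A T : Matrix (Fin 2) (Fin 2) F) (α β : F)
    (hT : T.det ≠ 0) (hA : A * T = T * !![α, 0; 0, β]) :
    ∃ e f : Matrix (Fin 2) (Fin 2) F, e * e = 0 ∧ f * f = 0 ∧ e * f + f * e = 1 ∧
      β • (A * e) = α • (e * A) ∧ α • (A * f) = β • (f * A) :=
  aux A T T⁻¹ α β (Matrix.mul_nonsing_inv T (isUnit_iff_ne_zero.2 hT))
    (Matrix.nonsing_inv_mul T (isUnit_iff_ne_zero.2 hT)) hA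

theorem TRI : TRI_stmt := by
  intro F _ A α β hA hne
  rw [Matrix.charpoly_fin_two] at hA
  have e0 := congrArg (Polynomial.eval 0) hA
  have e1 := congrArg (Polynomial.eval 1) hA
  simp only [Polynomial.eval_add, Polynomial.eval_sub, Polynomial.eval_mul, Polynomial.eval_pow,
    Polynomial.eval_X, Polynomial.eval_C] at e0 e1
  have hdet : A.det = α * β := by linear_combination e0
  have htr : A.trace = α + β := by linear_combination e0 - e1
  rw [Matrix.det_fin_two] at hdet
  rw [Matrix.trace_fin_two] at htr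
  obtain ⟨a, ha⟩ : ∃ a, a = A 0 0 := ⟨_, rfl⟩
  obtain ⟨b, hb⟩ : ∃ b, b = A 0 1 := ⟨_, rfl⟩
  obtain ⟨c, hc⟩ : ∃ c, c = A 1 0 := ⟨_, rfl⟩
  obtain ⟨d, hd⟩ : ∃ d, d = A 1 1 := ⟨_, rfl⟩
  have hAe : A = !![a, b; c, d] := by
    rw [ha, hb, hc, hd]
    ext i j
    fin_cases i <;> fin_cases j <;> rfl
  rw [← ha, ← hb, ← hc, ← hd] at hdet
  rw [← ha, ← hd] at htr
  have hd' : d = α + β - a := by linear_combination htr
  have hαβ : β - α ≠ 0 := sub_ne_zero.2 hne.symm
  by_cases hb0 : b = 0
  · by_cases hc0 : c = 0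
    · have h3 : (a - α) * (a - β) = 0 := by
        rw [hb0, hd'] at hdet
        linear_combination -hdet
      rcases mul_eq_zero.1 h3 with h4 | h4
      · have ha' : a = α := sub_eq_zero.1 h4
        refine aux2 A 1 α β (by rw [Matrix.det_one]; exact one_ne_zero) ?_
        rw [mul_one, one_mul, hAe, hb0, hc0, hd', ha']
        congr 1
        ext i j
        fin_cases i <;> fin_cases j <;> simp
      · have ha' : a = β := sub_eq_zero.1 h4
        refine aux2 A !![0, 1; 1, 0] α β (by rw [Matrix.det_fin_two]; simp) ?_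
        rw [hAe, hb0, hc0, hd', ha']
        ext i j
        fin_cases i <;> fin_cases j <;> simp
    · refine aux2 A !![α - d, β - d; c, c] α β ?_ ?_
      · rw [Matrix.det_fin_two_of]
        have : (α - d) * c - (β - d) * c = -((β - α) * c) := by ring
        rw [this]
        exact neg_ne_zero.2 (mul_ne_zero hαβ hc0)
      · rw [hAe]
        ext i j
        fin_cases i <;> fin_cases j <;> simp [Matrix.mul_apply, Fin.sum_univ_two]
        · linear_combination α * htr - hdet
        · linear_combination β * htr - hdet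
        · ring
        · ring
  · refine aux2 A !![b, b; α - a, β - a] α β ?_ ?_
    · rw [Matrix.det_fin_two_of]
      have : b * (β - a) - b * (α - a) = b * (β - α) := by ring
      rw [this]
      exact mul_ne_zero hb0 hαβ
    · rw [hAe]
      ext i j
      fin_cases i <;> fin_cases j <;> simp [Matrix.mul_apply, Fin.sum_univ_two]
      · ring
      · ring
      · linear_combination α * htr - hdet
      · linear_combination β * htr - hdet

end Pool.Agent.RG.TRI
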